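import Mathlib
import Pool.Agent.Q65.TS.Uni2

/-!
# The motivic t-structure is determined by the tensor product and the Tate object

Let `k` be any field and `C = DM_c(k)`, the rigid tensor triangulated category of constructible
Voevodsky motives over `k` with rational coefficients.  For a prime number `ℓ ≠ char k` let `R ℓ` be
the `ℓ`-adic realisation.  As t-exactness of a functor with values in the derived category of
continuous `ℓ`-adic representations can be tested on the underlying complexes of vector spaces, it is
given here by the tensor cohomology theory `H^n_ℓ(X) = (R ℓ).H (X⟦n⟧)` (structure `Realisation`: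
homological, lax symmetric monoidal, finite dimensional, bounded, with the Künneth formula).  A
t-structure is motivic for a family of realisations (`IsMotivic t R`) if it is non-degenerate,
compatible with the tensor product and all realisations of the family are t-exact, so that
question Q1 asks for `∃ t, IsMotivic t R`, `R` being the family of ALL `ℓ`-adic realisations.  It is a
tensor t-structure (`IsTensor t`) if it is non-degenerate and compatible with the tensor product:
these are the conditions of Q1 without the realisations.

**Theorem.**  (1) Suppose that there is a t-structure `t₀` which is motivic for one realisation, and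
let `t` be ANY tensor t-structure.
* If `M` lies in the heart of `t₀`, then so do all truncations of `M` for `t`.
* Every simple object `S` of the heart of `t₀` is homogeneous for `t`, that is, in one degree `i`.
* If `L` is in degree `m` for `t` (for example the Tate object `L = 𝟙(1)`), and `L^n` (`n` an integer)
  is a direct summand of `S^{⊗p}`, then `p i = n m`.  For example, if `S` is pure of weight `w` and
  polarizable, `S^∨ ≅ S(w)`, then `𝟙(-w)` is a direct summand of `S ⊗ S`, and so `i = - w m / 2`: the
  t-structure `t` is twisted by a multiple of the weight.
* `t` is bounded.

(2) If moreover some tensor power of every simple object of the heart of `t₀` contains a Tate object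
`𝟙(n)` as a direct summand (for example if all simple objects are polarizable), then `t₀` is the ONLY
tensor t-structure whose heart contains `𝟙(1)`.

(3) So a single tensor t-structure `t` with `𝟙(1)` in the heart decides the question: a t-structure
as in Q1 such that tensor powers of the simple objects of the heart contain Tate objects exists if
and only if `t` is such a t-structure.  In particular Q1 has a negative answer for the field `k` in
this sense as soon as ONE tensor t-structure with `𝟙(1)` in the heart is found for which ONE
realisation is not exact.

In characteristic zero the condition on the simple objects holds for every t-structure as in Q1: it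
implies the standard conjectures (Beilinson), so that the simple objects of the heart are direct
summands of objects `H^i(X)(n)`, `X` smooth and projective, and are polarizable.  The condition
that `𝟙(1)` is in the heart cannot be left out: if `k` is finite and the conjectures of Tate and
Beilinson hold, then `C` is the derived category of the semisimple category of pure motives, and for
every integer `c` there is the tensor t-structure for which the motives of weight `w` are in degree
`c w`.

What is used about `C = DM_c(k)` is known for all fields: it is rigid, idempotent complete, and
`End(𝟙) = ℚ`.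

The proof.  Let `P → M → Q` be a truncation triangle for `t`, where `M` is in the heart of `t₀`.
The dimension of `H_ℓ(M)`, which is in degree `0`, is finite, and `R ℓ` is faithful, so an exterior
power of `M` vanishes.  The morphism `P → M` induces monomorphisms on the t-cohomology after tensoring
with any object `W` of `C` (`umono_trunc`: in degree `m` one can replace `W` by its truncation in
degrees `≥ m - i`, if `P` is in degrees `≤ i`).  Hence the same holds for its tensor powers, and the
antisymmetrizer of `P^{⊗n}` is zero on the t-cohomology; it is an idempotent, so it is zero.  The same
holds for `Q`.  Therefore the odd cohomology `H^j_ℓ` of `P` and of `Q` vanishes: otherwise for an odd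
`j` all symmetric powers of `P⟦j⟧`, which are shifted exterior powers of `P`, are non-zero.  The long
exact sequence shows that `H_ℓ(P)` and `H_ℓ(Q)` are in degree `0`, and as `R ℓ` is conservative and
exact for `t₀`, the objects `P`, `Q` are in the heart of `t₀`.
-/

set_option autoImplicit false

open CategoryTheory Limits MonoidalCategory Pretriangulated Triangulated
open Pool.Agent.Y116.MT Pool.Agent.Q65.TS

universe v u w

/-- **All tensor t-structures, and uniqueness.** -/
theorem Pool.Agent.Results.MP_6d0ce9_ag.AllTensorStructures.result
    {C : Type u} [Category.{v} C] [Preadditive C] [HasZeroObject C] [HasShift C ℤ]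
    [∀ n : ℤ, (shiftFunctor C n).Additive] [Pretriangulated C] [IsTriangulated C]
    [MonoidalCategory C] [SymmetricCategory C] [TensorTriangulated C] [MonoidalPreadditive C]
    [Linear ℚ C] [MonoidalLinear ℚ C] [RightRigidCategory C] [IsIdempotentComplete C]
    (hunit : ∀ e : 𝟙_ C ⟶ 𝟙_ C, ∃ q : ℚ, e = q • 𝟙 _)
    {Λ : Type*} [Nonempty Λ] {E : Λ → Type w} [∀ l, Field (E l)]
    [∀ l, CharZero (E l)] (R : ∀ l, Realisation C (E l)) :
    (∀ (t₀ t : TStructure C) (l : Λ), IsMotivic t₀ (fun _ : Unit => R l) → IsTensor t →
      (∀ (M P Q : C) (f : P ⟶ M) (g : M ⟶ Q) (d : Q ⟶ P⟦(1 : ℤ)⟧) (i : ℤ),
        Triangle.mk f g d ∈ distTriang C → t₀.le 0 M → t₀.ge 0 M → t.le i P → t.ge (i + 1) Q →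
        (t₀.le 0 P ∧ t₀.ge 0 P) ∧ (t₀.le 0 Q ∧ t₀.ge 0 Q)) ∧
      (∀ S : C, SimpleHeart t₀ S → ∃ i : ℤ, t.le i S ∧ t.ge i S) ∧
      (∀ (L S : C) (m i : ℤ) (p : ℕ) (n : ℤ), t.le m L → t.ge m L → t.le i S → t.ge i S →
        HasPower L S p n → p * i = n * m) ∧
      (∀ X : C, ∃ a b : ℤ, t.ge a X ∧ t.le b X)) ∧
    (∀ (t₀ t : TStructure C) (l : Λ) (L : C), IsMotivic t₀ (fun _ : Unit => R l) →
      TateSummands t₀ L → IsTensor t → t.le 0 L → t.ge 0 L → t = t₀) ∧
    (∀ (t : TStructure C) (L : C), IsTensor t → t.le 0 L → t.ge 0 L →
      ((∃ t₀ : TStructure C, IsMotivic t₀ R ∧ TateSummands t₀ L) ↔
        IsMotivic t R ∧ TateSummands t L)) :=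
  main_uni2 hunit
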