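import Mathlib
import Pool.Agent.Q65.TS.Aff2

/-!
# The motivic t-structure: exactness of the realisations follows from Artin vanishing

Let `k` be any field and `C = DM_c(k)`, the rigid tensor triangulated category of constructible
Voevodsky motives over `k` with rational coefficients.  For a prime number `ℓ ≠ char k` let `R ℓ` be
the `ℓ`-adic realisation.  As t-exactness of a functor with values in the derived category of
continuous `ℓ`-adic representations can be tested on the underlying complexes of vector spaces, it is
given here by the tensor cohomology theory `H^n_ℓ(X) = (R ℓ).H (X⟦n⟧)` (structure `Realisation`:
homological, lax symmetric monoidal, finite dimensional, bounded, with the Künneth formula).  A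
t-structure is motivic for a family of realisations (`IsMotivic t R`) if it is non-degenerate,
compatible with the tensor product and all realisations of the family are t-exact, so that
question Q1 asks for `∃ t, IsMotivic t R`, `R` being the family of ALL `ℓ`-adic realisations.

The properties of a motivic t-structure which do not mention realisations are: it is non-degenerate,
compatible with the tensor product, and satisfies Artin vanishing,

  `h(U)(n)` is in degrees `≤ dim U` for all affine varieties `U` and all integers `n`

(`IsReasonable t Aff`; compare the reasonable t-structures of Voevodsky), where `h(U)` is the
cohomological motive of `U`.  Question Q1 contains in addition the exactness of all realisations,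
which implies that they are conservative (Beilinson).

**Theorem.**  Let `t` be a non-degenerate t-structure compatible with the tensor product which
satisfies Artin vanishing.

(1) If an object of `C` without `ℓ`-adic cohomology for ALL `ℓ` is zero, then `t` is a t-structure as
in Q1: all realisations are t-exact; moreover every single realisation is conservative, and `t` is
bounded.

(2) Every t-structure which is motivic for one realisation satisfies Artin vanishing.

(3) If objects of `C` without `ℓ`-adic cohomology for all `ℓ` are zero, then there is at most one
t-structure which is non-degenerate, compatible with the tensor product, and satisfies Artin
vanishing.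

(4) So the following are equivalent:
* there is a t-structure as in Q1;
* all `R ℓ` are conservative, and there is a t-structure which is non-degenerate, compatible with the
  tensor product, and satisfies Artin vanishing;
* the same for one `ℓ`;
* the `R ℓ` are jointly conservative, and there is such a t-structure.

Thus exactness of the realisations can be replaced in Q1 by conservativity of the family of all
realisations, which does not mention the t-structure.

What is used about `C = DM_c(k)` is known for all fields (`ArtinSystem`): Artin's vanishing theorem,
and Beilinson's basic lemma in the following form.  Let `Aff` be the class of the `h(U)(n)[j]`, `U`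
affine, `j ≥ dim U`.  For a smooth affine `X` of pure dimension `d` in a projective space and a
general hyperplane `H` the object `G = h(X, X ∩ H)(n)[d]` is an extension of `h(X)(n)[d]` by
`h(X ∩ H)(n)[d - 1]`, and its dual is the object `h(Y, Y ∖ X)(d - n)[d]`, where `Y` is the complement of
`H` in the closure of `X`, by the generic base change theorem.  So `G` and its dual are built from
objects of `Aff` by extensions, and by Artin's theorem the cohomology of `G` is in degree `0`; these
objects `G` (for finite `k`: with `X` over finite extensions of `k`) generate `C`, by induction on the
dimension (class `Good`).  Finally `End(𝟙) = ℚ`.  The theorem holds for every family of realisations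
with coefficient fields of characteristic zero with these properties, for example with Betti or de
Rham cohomology included.

The conservativity cannot be left out in the formal setting of the theorem: let `A` be the category
of bounded complexes of vector spaces, `C` its derived category with the standard t-structure, and
`R` the total complex.  Then `C` is generated by the unit and by the object `cone(id)` of the heart,
which has no cohomology at all, but `R` is not t-exact.

The proof.  Let `M` be an object of the heart whose cohomology is in degree `0` for all `ℓ`.  Its
dimension does not depend on `ℓ`, as it is the trace of the identity of `M` in `End(𝟙) = ℚ`; so the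
antisymmetrizer of a tensor power of `M` vanishes in all realisations, and, as it is idempotent and
the `R ℓ` are jointly conservative, it is zero.  The antisymmetrizers of the subobjects and quotients
`N` of `M` in the heart then are zero as well.  This implies that the odd cohomology of `N` vanishes:
otherwise `N⟦j⟧` has for some odd `j` a non-zero class in degree `0`, none of the symmetric powers of
which vanishes, but the symmetric powers of `N⟦j⟧` are the shifted exterior powers of `N`.  Hence the
long exact cohomology sequences of `0 → N → M → M/N → 0` decompose, and the cohomology of `N` is in
degree `0`, too.  So the objects `X` of `C` all of whose t-cohomology objects have cohomology in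
degree `0` form a thick subcategory, which contains the generators `G`, because these lie in the heart
by Artin vanishing for `t` and duality.
-/

set_option autoImplicit false

open CategoryTheory Limits MonoidalCategory Pretriangulated Triangulated
open Pool.Agent.Y116.MT Pool.Agent.Q65.TS

universe v u w

/-- **Artin vanishing and conservativity imply exactness.** -/
theorem Pool.Agent.Results.MP_6d0ce9_ag.ArtinVanishing.result
    {C : Type u} [Category.{v} C] [Preadditive C] [HasZeroObject C] [HasShift C ℤ]
    [∀ n : ℤ, (shiftFunctor C n).Additive] [Pretriangulated C] [IsTriangulated C]
    [MonoidalCategory C] [SymmetricCategory C] [TensorTriangulated C] [MonoidalPreadditive C]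
    [Linear ℚ C] [MonoidalLinear ℚ C] [RightRigidCategory C]
    (hunit : ∀ e : 𝟙_ C ⟶ 𝟙_ C, ∃ q : ℚ, e = q • 𝟙 _)
    (Aff Good : ObjectProperty C) {Λ : Type*} [Nonempty Λ] {E : Λ → Type w} [∀ l, Field (E l)]
    [∀ l, CharZero (E l)] (R : ∀ l, Realisation C (E l)) (S : ArtinSystem Aff Good R) :
    (∀ t : TStructure C, IsReasonable t Aff → JointlyConservative R →
      IsMotivic t R ∧ (∀ l, Conservative (R l)) ∧ ∀ X : C, ∃ a b : ℤ, t.ge a X ∧ t.le b X) ∧
    (∀ (t : TStructure C) (l : Λ), IsMotivic t (fun _ : Unit => R l) → IsReasonable t Aff) ∧
    (∀ t t' : TStructure C, JointlyConservative R → IsReasonable t Aff →
      IsReasonable t' Aff → t = t') ∧
    List.TFAE [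
      ∃ t : TStructure C, IsMotivic t R,
      (∀ l, Conservative (R l)) ∧ ∃ t : TStructure C, IsReasonable t Aff,
      (∃ l, Conservative (R l)) ∧ ∃ t : TStructure C, IsReasonable t Aff,
      JointlyConservative R ∧ ∃ t : TStructure C, IsReasonable t Aff] :=
  main_aff S hunit
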