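import Mathlib
import Pool.Agent.Q65.TS.Jcon

/-!
# Tensor t-structures with Tate summands: exactness follows from conservativity

Let `k` be any field and `C = DM_c(k)`, the rigid tensor triangulated category of constructible
Voevodsky motives over `k` with rational coefficients.  For a prime number `ℓ ≠ char k` let `R ℓ` be
the `ℓ`-adic realisation, given here by the tensor cohomology theory `H^n_ℓ(X) = (R ℓ).H (X⟦n⟧)`
(structure `Realisation`: homological, lax symmetric monoidal, finite dimensional, bounded, with the
Künneth formula).  `(R ℓ).Deg X b` says that `H^n_ℓ(X) = 0` for `n ≠ b`.  A tensor t-structure
(`IsTensor t`) is one which is non-degenerate and compatible with the tensor product; it is motivic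
(`IsMotivic t R`) if moreover all realisations are t-exact, so that question Q1 asks for
`∃ t, IsMotivic t R`, `R` being the family of ALL `ℓ`-adic realisations.  The realisations are jointly
conservative if an object without `ℓ`-adic cohomology for all `ℓ` is zero.

**Theorem.**  (1) Let the realisations be jointly conservative and let `t` be ANY tensor t-structure.
If the cohomology `H_ℓ(M)` of an object `M` is in the same degree `b` for all `ℓ`, then the same is true
for all truncations of `M` for `t`, and, if `M` is homogeneous for `t`, for all subobjects and
quotients of `M` in the corresponding shift of the heart.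

(2) If moreover for every simple object `S` of the heart of `t` some tensor power `S^{⊗p}`, `p > 0`,
contains a Tate object `𝟙(n)` as a direct summand (`TateSummands t L`, with `L = 𝟙(1)`), then `t` is
motivic: all realisations are t-exact, and every single realisation is conservative.

(3) So the following are equivalent:
* there is a t-structure as in Q1 for which tensor powers of the simple objects of the heart contain
  Tate objects;
* the realisations are jointly conservative, and there is a tensor t-structure for which tensor
  powers of the simple objects of the heart contain Tate objects.

(4) If the realisations are jointly conservative, there is at most one tensor t-structure `t` with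
this property.

In characteristic zero the first statement of (3) is Q1 for the field `k`, as a t-structure as in Q1
implies the standard conjectures (Beilinson), so that the simple objects `S` of the heart are
polarizable: `S^∨ ≅ S(w)`, and `𝟙(-w)` is a direct summand of `S ⊗ S^∨(-w) ≅ S ⊗ S`.  So in characteristic
zero Q1 is equivalent to conservativity and the existence of a t-structure with purely
tensor-categorical properties: it is non-degenerate, compatible with the tensor product, and
tensor powers of the simple objects contain Tate objects.

The condition on the Tate objects cannot be left out in (2): if `k` is finite and the conjectures of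
Tate and Beilinson hold, then for every integer `c` there is a tensor t-structure for which the
motives of weight `w` are in degree `c w`.

What is used about `C = DM_c(k)` is known for all fields: it is rigid, idempotent complete,
`End(𝟙) = ℚ`, and it is generated by the objects whose `ℓ`-adic cohomology is in degree `0` for all
`ℓ` (`BasicLemma`, a consequence of Beilinson's basic lemma: the objects `h(X, X ∩ H)(n)[dim X]` for
smooth affine `X` and general hyperplanes `H` generate `C`).

The proof.  If `H_ℓ(M)` is in degree `0` for all `ℓ`, its dimension is the rank of `M` and does not
depend on `ℓ`; by conservativity an exterior power of `M` vanishes.  If `P → M → Q` is a distinguished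
triangle with `P` in degrees `≤ i` and `Q` in degrees `≥ i` for `t`, then `P → M` induces monomorphisms
on the t-cohomology after tensoring with every object, and similarly for `M → Q`; so the same
exterior powers of `P` and `Q` vanish (the antisymmetrizers are idempotents which are zero on the
t-cohomology).  Hence the odd cohomology of `P` and `Q` vanishes, and (1) follows from the long exact
sequence.  For (2) let `M` have cohomology in degree `0`.  If the piece `Z` of degree `j ≠ 0` of `M`
were not zero, then `Z⟦j⟧` would contain a simple object `S` of the heart with cohomology in degree
`-j`, and `S^{⊗p}` would have a direct summand `𝟙(n)` with cohomology in degree `0 ≠ -pj`.  So `M` lies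
in the heart.  Therefore the heart contains generators of `C` with cohomology in degree `0`, and by
(1) the objects with t-cohomology objects of this kind form a thick subcategory.
-/

set_option autoImplicit false

open CategoryTheory Limits MonoidalCategory Pretriangulated Triangulated
open Pool.Agent.Y116.MT Pool.Agent.Q65.TS

universe v u w

/-- **Tensor t-structures with Tate summands, and conservativity.** -/
theorem Pool.Agent.Results.MP_6d0ce9_ag.ConservativeTensorStructures.result
    {C : Type u} [Category.{v} C] [Preadditive C] [HasZeroObject C] [HasShift C ℤ]
    [∀ n : ℤ, (shiftFunctor C n).Additive] [Pretriangulated C] [IsTriangulated C]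
    [MonoidalCategory C] [SymmetricCategory C] [TensorTriangulated C] [MonoidalPreadditive C]
    [Linear ℚ C] [MonoidalLinear ℚ C] [RightRigidCategory C] [IsIdempotentComplete C]
    (hunit : ∀ e : 𝟙_ C ⟶ 𝟙_ C, ∃ q : ℚ, e = q • 𝟙 _)
    {Λ : Type*} [Nonempty Λ] {E : Λ → Type w} [∀ l, Field (E l)]
    [∀ l, CharZero (E l)] (R : ∀ l, Realisation C (E l)) (hbasic : BasicLemma R) :
    (∀ t : TStructure C, IsTensor t → JointlyConservative R →
      ∀ (M P Q : C) (f : P ⟶ M) (g : M ⟶ Q) (d : Q ⟶ P⟦(1 : ℤ)⟧) (i b : ℤ),
        Triangle.mk f g d ∈ distTriang C → t.le i P → t.ge i Q → (∀ l, (R l).Deg M b) →
        (∀ l, (R l).Deg P b) ∧ (∀ l, (R l).Deg Q b)) ∧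
    (∀ (t : TStructure C) (L : C), IsTensor t → JointlyConservative R →
      (∀ l, (R l).Deg L 0) → TateSummands t L →
      IsMotivic t R ∧ ∀ l, Conservative (R l)) ∧
    (∀ L : C, (∀ l, (R l).Deg L 0) →
      ((∃ t : TStructure C, IsMotivic t R ∧ TateSummands t L) ↔
        JointlyConservative R ∧ ∃ t : TStructure C, IsTensor t ∧ TateSummands t L)) ∧
    (∀ (t t' : TStructure C) (L L' : C), JointlyConservative R → (∀ l, (R l).Deg L 0) →
      (∀ l, (R l).Deg L' 0) → IsTensor t → TateSummands t L → IsTensor t' → TateSummands t' L' →
      t = t') :=
  main_con hunit hbasic
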