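import Mathlib
import Pool.Agent.Q65.TS.Conv

/-!
# The motivic t-structure: one prime `ℓ` suffices, in every characteristic

Let `k` be any field and `C = DM_c(k)`, the rigid tensor triangulated category of constructible
Voevodsky motives over `k` with rational coefficients.  For a prime number `ℓ ≠ char k` let `R ℓ` be
the `ℓ`-adic realisation.  As t-exactness of a functor with values in the derived category of
continuous `ℓ`-adic representations can be tested on the underlying complexes of vector spaces, it is
given here by the tensor cohomology theory `H^n_ℓ(X) = (R ℓ).H (X⟦n⟧)` (structure `Realisation`:
homological, lax symmetric monoidal, finite dimensional, bounded, with the Künneth formula).  A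
t-structure is motivic for a family of realisations (`IsMotivic t R`) if it is non-degenerate,
compatible with the tensor product and all realisations of the family are t-exact, so that
question Q1 asks for `∃ t, IsMotivic t R`, `R` being the family of ALL `ℓ`-adic realisations.

**Theorem.**  (1) If a t-structure `t` on `C` is non-degenerate, compatible with the tensor product,
and ONE realisation `R ℓ` is t-exact for `t`, then all realisations are t-exact for `t`: `t` is a
t-structure as in Q1.  Moreover `t` is bounded, ALL realisations are conservative, and the dimension
of the weight `m` part of `H^n_ℓ(X)` does not depend on `ℓ`, for all `m`, `n` and all objects `X`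
(for example for the cohomology with compact support of every variety).

(2) Two such t-structures, for possibly different primes `ℓ`, `ℓ'`, are equal.

(3) So the following are equivalent:
* there is a t-structure as in Q1 (for all `ℓ`);
* there is one prime `ℓ` and a non-degenerate t-structure compatible with the tensor product for
  which `R ℓ` is t-exact;
* there is one prime `ℓ` such that `R ℓ` is conservative and t-exact for some t-structure (which is
  not supposed to be non-degenerate or compatible with the tensor product);
* all realisations are conservative, and there is a t-structure for which all of them are t-exact.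

For fields of characteristic zero the different `ℓ` can be compared by Betti cohomology.  The content
of the theorem is the case of characteristic `p > 0`, where no such comparison is known (the
independence of `ℓ` of the dimension of `H^n_{c}(X, ℚ_ℓ)` is open, and it is not known that the
kernels, or the cones of morphisms killed, of different `R ℓ` are the same).  The same theorem holds
if the crystalline (rigid) realisation is included in the family.

What is used about `C` and the realisations is known for all fields `k` (`WeightSystem`): the weight
filtration (Deligne; the functors `gr ℓ m X = Gr^W_m H^0_ℓ(X)` are homological, and `H^0_ℓ(X) = 0` if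
they vanish for all `m`); `H^n_ℓ` of a Chow motive is pure of weight `n` (Deligne); the Euler
characteristic of the weight `m` part, `∑ (-1)^n dim Gr^W_m H^n_ℓ(X)`, does not depend on `ℓ` (for
Chow motives by Deligne and Katz-Messing, hence for all `X`, as they generate `C`); every class of
objects which contains the Chow motives and is closed under shifts, cones and direct factors is the
class of all objects (Gabber's alterations, Bondarko); idempotents of `End(𝟙) = ℚ` are trivial.

The proof.  Let `t` be motivic for `R ℓ` and `R' = R ℓ'`.  For `M` in the heart an exterior power of
`M` vanishes, as the `ℓ`-adic cohomology is a faithful tensor functor on the heart.  Hence for every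
`R'` the odd cohomology `H'^j(M)`, `j` odd, vanishes: otherwise `N = M⟦j⟧` has `H'^0(N) ≠ 0`, so that
all symmetric powers of `N` are non-zero, but these are the exterior powers of `M` up to a shift
(`Q65.TS.odd_zero`).  So the class `S` of the objects `Z` of degree `b` with `H'^i(Z) = 0` for `i ≠ b`
is closed under subobjects, quotients and extensions, and the objects whose t-cohomology is in `S` form
a thick subcategory (`Q65.TS.Tow`).  If `X` is a Chow motive, the object `Z = H^b_t(X)⟦-b⟧` has only
the weight `b` in `H_ℓ`, so by the Euler characteristics and the vanishing of odd cohomology it has
only the weight `b` in all `H'^i`; by purity of `H'^i(X)` it follows that `H'^i(Z) = 0` for `i ≠ b`.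
So this thick subcategory contains the Chow motives and is everything, and `R'` is t-exact.
-/

set_option autoImplicit false

open CategoryTheory Limits MonoidalCategory Pretriangulated Triangulated
open Pool.Agent.Y116.MT Pool.Agent.Q65.TS

universe v u w

/-- **One prime suffices.**  For a rigid tensor triangulated category `C` with a family of
realisations `R l` with weights (`WeightSystem`), a non-degenerate t-structure compatible with the
tensor product for which one realisation is exact is exact for all realisations. -/
theorem Pool.Agent.Results.MP_6d0ce9_ag.OnePrime.result
    {C : Type u} [Category.{v} C] [Preadditive C] [HasZeroObject C] [HasShift C ℤ]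
    [∀ n : ℤ, (shiftFunctor C n).Additive] [Pretriangulated C] [IsTriangulated C]
    [MonoidalCategory C] [SymmetricCategory C] [TensorTriangulated C] [MonoidalPreadditive C]
    [Linear ℚ C] [MonoidalLinear ℚ C] [RightRigidCategory C]
    (hid : ∀ e : 𝟙_ C ⟶ 𝟙_ C, e ≫ e = e → e = 0 ∨ e = 𝟙 _)
    (Chow : ObjectProperty C) {Λ : Type*} [Nonempty Λ] {E : Λ → Type w} [∀ l, Field (E l)]
    [∀ l, CharZero (E l)] (R : ∀ l, Realisation C (E l)) (W : WeightSystem Chow R) :
    (∀ (t : TStructure C) (l : Λ), IsMotivic t (fun _ : Unit => R l) →
      IsMotivic t R ∧ (∀ l', Conservative (R l')) ∧
      (∀ X : C, ∃ a b : ℤ, t.ge a X ∧ t.le b X) ∧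
      (∀ (l' l'' : Λ) (m n : ℤ) (X : C), Module.finrank (E l') ((W.gr l' m).obj (X⟦n⟧)) =
        Module.finrank (E l'') ((W.gr l'' m).obj (X⟦n⟧)))) ∧
    (∀ (t t' : TStructure C) (l l' : Λ), IsMotivic t (fun _ : Unit => R l) →
      IsMotivic t' (fun _ : Unit => R l') → t = t') ∧
    List.TFAE [
      ∃ t : TStructure C, IsMotivic t R,
      ∃ (l : Λ) (t : TStructure C), IsMotivic t (fun _ : Unit => R l),
      ∃ (l : Λ) (t : TStructure C), Conservative (R l) ∧ TExact t (R l),
      (∀ l : Λ, Conservative (R l)) ∧ ∃ t : TStructure C, ∀ l : Λ, TExact t (R l)] :=
  main W hid
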